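import Mathlib
import Pool.Agent.H16R.Main

set_option autoImplicit false

universe u

open Pool.Agent.Helper975.RDR

namespace Pool.Agent.Results.MP_54a553_al.WithoutHensel

/-- Let `(K, v)` be a field with a nontrivial valuation (valuation ring `A`), not necessarily
henselian. Suppose that, if the residue characteristic is a prime `p`, every extension `(L, B)` of
`(K, A)` such that `L | K` is separable-algebraic, `(L, B)` is henselian and all finite extensions
of `L` have degree a power of `p`, is an independent defect field. Then `(K, v)` is roughly deeply
ramified. -/
theorem result (K : Type u) [Field K] (A : ValuationSubring K) (hnontrivial : A ≠ ⊤)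
    (hindependent : ∀ p : ℕ, p.Prime → CharP (IsLocalRing.ResidueField A) p →
      ∀ (L : Type u) [Field L] [Algebra K L] [Algebra.IsSeparable K L],
      (∀ (M : Type u) [Field M] [Algebra L M] [FiniteDimensional L M],
        ∃ k : ℕ, Module.finrank L M = p ^ k) →
      ∀ B : ValuationSubring L, B.comap (algebraMap K L) = A → IsHenselianField B →
        IsIndependentDefectField B) :
    IsRoughlyDeeplyRamified A :=
  Pool.Agent.H16R.main K A hnontrivial hindependent

end Pool.Agent.Results.MP_54a553_al.WithoutHensel
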